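import Pool.Agent.Helper57.NX.Defs3
import Pool.Agent.Helper5.NX.Basic
import Pool.Agent.Helper25.NX.Gcs
import Pool.Agent.Helper88.NX.BoxNorm

/-!
# Project NX, module NX-26: linear forms are controlled by box norms over intervals
-/

set_option autoImplicit false

open Finset
open scoped BigOperators ComplexConjugate

namespace Pool.Agent.Helper57.NX

noncomputable section

namespace LF

/-! ### averages over shifts -/

theorem shift_avg (G : ℕ → ℂ) (hG : ∀ k, ‖G k‖ ≤ 1) (K : ℕ) (hK : 0 < K) (h : ℕ) :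
    ‖(𝔼 k ∈ range K, G k) - 𝔼 k ∈ range K, G (k + h)‖ ≤ 2 * h / K := by
  have hK0 : (0 : ℝ) < K := by exact_mod_cast hK
  have e1 : ∑ k ∈ range (K + h), G k = ∑ k ∈ range K, G k + ∑ k ∈ range h, G (K + k) :=
    Finset.sum_range_add G K h
  have e2 : ∑ k ∈ range (K + h), G k = ∑ k ∈ range h, G k + ∑ k ∈ range K, G (k + h) := by
    rw [add_comm K h, Finset.sum_range_add G h K]
    simp only [add_comm h]
  have e3 : (∑ k ∈ range K, G k) - ∑ k ∈ range K, G (k + h)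
      = (∑ k ∈ range h, G k) - ∑ k ∈ range h, G (K + k) := by
    linear_combination e2 - e1
  rw [Finset.expect_eq_sum_div_card, Finset.expect_eq_sum_div_card, Finset.card_range,
    ← sub_div, e3, norm_div, Complex.norm_natCast]
  refine div_le_div_of_nonneg_right ?_ hK0.le
  have h1 : ∀ g : ℕ → ℂ, (∀ k, ‖g k‖ ≤ 1) → ‖∑ k ∈ range h, g k‖ ≤ h := by
    intro g hg
    refine (norm_sum_le _ _).trans ((Finset.sum_le_card_nsmul _ _ 1 fun k _ => hg k).trans ?_)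
    rw [nsmul_eq_mul, mul_one, Finset.card_range]
  calc _ ≤ _ := norm_sub_le _ _
    _ ≤ h + h := add_le_add (h1 _ hG) (h1 _ fun k => hG _)
    _ = 2 * h := by ring

theorem avg_avg {ι : Type} (L : Finset ι) (hL : L.Nonempty) (s : ι → ℕ) (H : ℝ)
    (hs : ∀ l ∈ L, (s l : ℝ) ≤ H) (G : ℕ → ℂ) (hG : ∀ k, ‖G k‖ ≤ 1) (K : ℕ) (hK : 0 < K) :
    ‖(𝔼 k ∈ range K, G k) - 𝔼 k ∈ range K, 𝔼 l ∈ L, G (k + s l)‖ ≤ 2 * H / K := by
  have hK0 : (0 : ℝ) < K := by exact_mod_cast hK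
  rw [Finset.expect_comm]
  have h1 : (𝔼 k ∈ range K, G k) = 𝔼 l ∈ L, 𝔼 k ∈ range K, G k := by
    rw [Finset.expect_const hL]
  rw [h1, ← Finset.expect_sub_distrib]
  refine (RCLike.norm_expect_le (K := ℂ)).trans (Finset.expect_le hL fun l hl => ?_)
  refine (shift_avg G hG K hK (s l)).trans ?_
  refine div_le_div_of_nonneg_right ?_ hK0.le
  linarith [hs l hl]

theorem exists_of_le_norm_expect {ι : Type} (L : Finset ι) (hL : L.Nonempty) (G : ι → ℂ) (a : ℝ)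
    (h : a ≤ ‖𝔼 k ∈ L, G k‖) : ∃ k ∈ L, a ≤ ‖G k‖ :=
  Finset.exists_le_of_le_expect hL (h.trans (RCLike.norm_expect_le (K := ℂ)))

/-! ### products of bounded functions -/

theorem norm_prod_sub_prod_le {ι : Type} (s : Finset ι) (a b : ι → ℂ) (ha : ∀ i ∈ s, ‖a i‖ ≤ 1)
    (hb : ∀ i ∈ s, ‖b i‖ ≤ 1) : ‖∏ i ∈ s, a i - ∏ i ∈ s, b i‖ ≤ ∑ i ∈ s, ‖a i - b i‖ := by
  classical
  induction s using Finset.induction_on with
  | empty => simp
  | insert i s hi ih =>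
    rw [Finset.prod_insert hi, Finset.prod_insert hi, Finset.sum_insert hi]
    have h1 := ih (fun j hj => ha j (Finset.mem_insert_of_mem hj))
      (fun j hj => hb j (Finset.mem_insert_of_mem hj))
    have h2 : ‖∏ j ∈ s, a j‖ ≤ 1 := by
      rw [norm_prod]
      exact Finset.prod_le_one (fun _ _ => norm_nonneg _)
        fun j hj => ha j (Finset.mem_insert_of_mem hj)
    have h3 := hb i (Finset.mem_insert_self i s)
    calc ‖a i * ∏ j ∈ s, a j - b i * ∏ j ∈ s, b j‖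
        = ‖(a i - b i) * ∏ j ∈ s, a j + b i * (∏ j ∈ s, a j - ∏ j ∈ s, b j)‖ := by
          congr 1
          ring
      _ ≤ ‖a i - b i‖ * ‖∏ j ∈ s, a j‖ + ‖b i‖ * ‖∏ j ∈ s, a j - ∏ j ∈ s, b j‖ := by
          refine (norm_add_le _ _).trans ?_
          rw [norm_mul, norm_mul]
      _ ≤ ‖a i - b i‖ * 1 + 1 * ∑ j ∈ s, ‖a j - b j‖ := by
          gcongr
      _ = _ := by ring

variable {N : ℕ} [NeZero N]

theorem l1_pair {B X : ℝ} {f : ZMod N → ℂ} (h : TV B X f) (hX : 0 < X) (u v : ℤ) :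
    𝔼 x, ‖f (x + (u : ZMod N)) - f (x + (v : ZMod N))‖ ≤ |((u - v : ℤ) : ℝ)| * B * (1 / X + 1 / N) := by
  have h1 := h.l1_shift hX (u - v)
  have h2 := expect_shift (fun x : ZMod N => ‖f (x + ((u - v : ℤ) : ZMod N)) - f x‖) (v : ZMod N)
  rw [← h2] at h1
  refine le_trans (le_of_eq (Finset.expect_congr rfl fun x _ => ?_)) h1
  congr 3
  push_cast
  ring

/-- replacing the arguments in a product costs the sum of the displacements -/
theorem expect_prod_diff {ι : Type} [Fintype ι] {B X : ℝ} (hX : 0 < X) (F : ZMod N → ℂ)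
    (hF : ∀ x, ‖F x‖ ≤ 1) (g : ι → ZMod N → ℂ) (hg : ∀ i, Adm B X (g i)) (u v : ι → ℤ) (E : ι → ℝ)
    (hE : ∀ i, |((u i - v i : ℤ) : ℝ)| ≤ E i) :
    ‖(𝔼 x, F x * ∏ i, g i (x + (u i : ZMod N))) - 𝔼 x, F x * ∏ i, g i (x + (v i : ZMod N))‖
      ≤ (∑ i, E i) * (B * (1 / X + 1 / N)) := by
  rw [← Finset.expect_sub_distrib]
  refine (RCLike.norm_expect_le (K := ℂ)).trans ?_
  have h1 : ∀ x : ZMod N, ‖F x * ∏ i, g i (x + (u i : ZMod N))
      - F x * ∏ i, g i (x + (v i : ZMod N))‖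
      ≤ ∑ i, ‖g i (x + (u i : ZMod N)) - g i (x + (v i : ZMod N))‖ := by
    intro x
    rw [← mul_sub, norm_mul]
    calc _ ≤ 1 * ‖∏ i, g i (x + (u i : ZMod N)) - ∏ i, g i (x + (v i : ZMod N))‖ :=
          mul_le_mul_of_nonneg_right (hF x) (norm_nonneg _)
      _ ≤ _ := by
          rw [one_mul]
          exact norm_prod_sub_prod_le _ _ _ (fun i _ => (hg i).bdd _) fun i _ => (hg i).bdd _
  refine (Finset.expect_le_expect fun x _ => h1 x).trans ?_
  rw [Finset.expect_sum_comm, Finset.sum_mul]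
  refine Finset.sum_le_sum fun i _ => ?_
  refine (l1_pair (hg i).tv hX _ _).trans ?_
  have hB : 0 ≤ B := (hg i).tv.nonneg
  have h2 : 0 ≤ B * (1 / X + 1 / N) := by positivity
  calc _ = |((u i - v i : ℤ) : ℝ)| * (B * (1 / X + 1 / N)) := by ring
    _ ≤ _ := mul_le_mul_of_nonneg_right (hE i) h2

/-! ### box averages with integer displacements -/

/-- the box average for given integer displacements -/
def W {r : ℕ} (f : ZMod N → ℂ) (u : (Fin r → Bool) → ℤ) : ℂ :=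
  𝔼 x : ZMod N, ∏ ω : Fin r → Bool, cjj ω (f (x + (u ω : ZMod N)))

theorem adm_cjj {r : ℕ} {B X : ℝ} {f : ZMod N → ℂ} (hf : Adm B X f) (ω : Fin r → Bool) :
    Adm B X (fun x => cjj ω (f x)) := by
  unfold cjj
  split_ifs
  · exact hf
  · exact hf.cnj

theorem W_lip {r : ℕ} {B X : ℝ} (hX : 0 < X) {f : ZMod N → ℂ} (hf : Adm B X f)
    (u v : (Fin r → Bool) → ℤ) (E : ℝ) (hE : ∀ ω, |((u ω - v ω : ℤ) : ℝ)| ≤ E) :
    ‖W f u - W f v‖ ≤ 2 ^ r * E * (B * (1 / X + 1 / N)) := by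
  have h1 := expect_prod_diff (N := N) hX (fun _ => (1 : ℂ)) (fun _ => by simp)
    (fun ω x => cjj ω (f x)) (fun ω => adm_cjj hf ω) u v (fun _ => E) hE
  simp only [one_mul] at h1
  refine h1.trans (le_of_eq ?_)
  rw [Finset.sum_const, nsmul_eq_mul, Finset.card_univ, Fintype.card_pi_const, Fintype.card_bool]
  push_cast
  ring

theorem W_shift {r : ℕ} (f : ZMod N → ℂ) (u : (Fin r → Bool) → ℤ) (c : ℤ) :
    W f (fun ω => u ω + c) = W f u := by
  unfold W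
  rw [← expect_shift (fun x : ZMod N => ∏ ω : Fin r → Bool, cjj ω (f (x + (u ω : ZMod N))))
    (c : ZMod N)]
  refine Finset.expect_congr rfl fun x _ => Finset.prod_congr rfl fun ω _ => ?_
  congr 2
  push_cast
  ring

theorem W_cube {r : ℕ} (f : ZMod N → ℂ) (a b : Fin r → ℕ) :
    W f (fun ω => ∑ i, ((sel ω a b i : ℕ) : ℤ)) = 𝔼 x, cube f a b x := by
  unfold W cube tot
  refine Finset.expect_congr rfl fun x _ => Finset.prod_congr rfl fun ω _ => ?_
  congr 3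
  push_cast
  rfl

/-! ### equidistribution -/

omit [NeZero N] in
theorem expect_pi_div {r : ℕ} (E F : Fin r → ℕ) (hF : ∀ i, 0 < F i) (Φ : (Fin r → ℕ) → ℂ) :
    𝔼 j ∈ Fintype.piFinset (fun i => range (E i * F i)), Φ (fun i => j i / F i)
      = 𝔼 l ∈ Fintype.piFinset (fun i => range (E i)), Φ l := by
  have hC : (Fintype.piFinset (fun i => range (F i))).Nonempty :=
    ⟨fun _ => 0, Fintype.mem_piFinset.2 fun i => Finset.mem_range.2 (hF i)⟩
  have h1 : 𝔼 l ∈ Fintype.piFinset (fun i => range (E i)), Φ l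
      = 𝔼 p ∈ (Fintype.piFinset (fun i => range (E i))) ×ˢ
          (Fintype.piFinset (fun i => range (F i))), Φ p.1 := by
    rw [Finset.expect_product]
    exact Finset.expect_congr rfl fun l _ => (Finset.expect_const hC _).symm
  rw [h1]
  refine Finset.expect_nbij' (fun j => (fun i => j i / F i, fun i => j i % F i))
    (fun p => fun i => p.1 i * F i + p.2 i) ?_ ?_ ?_ ?_ ?_
  · intro j hj
    rw [Fintype.mem_piFinset] at hj
    rw [Finset.mem_product, Fintype.mem_piFinset, Fintype.mem_piFinset]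
    refine ⟨fun i => Finset.mem_range.2 ?_, fun i => Finset.mem_range.2 (Nat.mod_lt _ (hF i))⟩
    rw [Nat.div_lt_iff_lt_mul (hF i)]
    exact Finset.mem_range.1 (hj i)
  · intro p hp
    rw [Finset.mem_product, Fintype.mem_piFinset, Fintype.mem_piFinset] at hp
    rw [Fintype.mem_piFinset]
    intro i
    rw [Finset.mem_range]
    have h2 := Finset.mem_range.1 (hp.1 i)
    have h3 := Finset.mem_range.1 (hp.2 i)
    calc p.1 i * F i + p.2 i < p.1 i * F i + F i := by omega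
      _ = (p.1 i + 1) * F i := by ring
      _ ≤ E i * F i := Nat.mul_le_mul_right _ h2
  · intro j _
    funext i
    exact Nat.div_add_mod' (j i) (F i)
  · intro p hp
    rw [Finset.mem_product, Fintype.mem_piFinset, Fintype.mem_piFinset] at hp
    refine Prod.ext ?_ ?_
    · funext i
      have h3 := Finset.mem_range.1 (hp.2 i)
      change (p.1 i * F i + p.2 i) / F i = p.1 i
      rw [mul_comm, Nat.mul_add_div (hF i), Nat.div_eq_of_lt h3, add_zero]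
    · funext i
      have h3 := Finset.mem_range.1 (hp.2 i)
      change (p.1 i * F i + p.2 i) % F i = p.2 i
      rw [Nat.mul_add_mod', Nat.mod_eq_of_lt h3]
  · intro j _
    rfl

omit [NeZero N] in
theorem expect_pi_refl {r : ℕ} (E : Fin r → ℕ) (P : Fin r → Prop) [DecidablePred P]
    (Φ : (Fin r → ℕ) → ℂ) :
    𝔼 l ∈ Fintype.piFinset (fun i => range (E i)), Φ (fun i => if P i then E i - 1 - l i else l i)
      = 𝔼 l ∈ Fintype.piFinset (fun i => range (E i)), Φ l := by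
  refine Finset.expect_nbij' (fun l => fun i => if P i then E i - 1 - l i else l i)
    (fun l => fun i => if P i then E i - 1 - l i else l i) ?_ ?_ ?_ ?_ ?_
  · intro l hl
    rw [Fintype.mem_piFinset] at hl ⊢
    intro i
    have h1 := Finset.mem_range.1 (hl i)
    rw [Finset.mem_range]
    split_ifs <;> omega
  · intro l hl
    rw [Fintype.mem_piFinset] at hl ⊢
    intro i
    have h1 := Finset.mem_range.1 (hl i)
    rw [Finset.mem_range]
    split_ifs <;> omega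
  · intro l hl
    rw [Fintype.mem_piFinset] at hl
    funext i
    have h1 := Finset.mem_range.1 (hl i)
    dsimp only
    split_ifs <;> omega
  · intro l hl
    rw [Fintype.mem_piFinset] at hl
    funext i
    have h1 := Finset.mem_range.1 (hl i)
    dsimp only
    split_ifs <;> omega
  · intro l _
    rfl

/-! ### comparing progressions with intervals -/

omit [NeZero N] in
/-- `j / X'` and `j / e` are coupled: `ρ * (j / X') ≈ j / e` -/
theorem couple_real (ρ : ℝ) (hρ : 0 < ρ) (X' e j : ℕ) (hX' : 0 < X') (he : 0 < e)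
    (he1 : ρ * e ≤ X') (he2 : (X' : ℝ) < ρ * (e + 1)) (hj : j < e * X') :
    -(2 * ρ) ≤ ρ * ((j / X' : ℕ) : ℝ) - ((j / e : ℕ) : ℝ) ∧
      ρ * ((j / X' : ℕ) : ℝ) - ((j / e : ℕ) : ℝ) ≤ 1 := by
  have hX0 : (0 : ℝ) < X' := by exact_mod_cast hX'
  have he0 : (0 : ℝ) < e := by exact_mod_cast he
  have hj0 : (0 : ℝ) ≤ j := Nat.cast_nonneg _
  have a1 : ((j / X' : ℕ) : ℝ) * X' ≤ j := by exact_mod_cast Nat.div_mul_le_self j X'
  have a2 : (j : ℝ) < ((j / X' : ℕ) : ℝ) * X' + X' := by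
    exact_mod_cast Nat.lt_div_mul_add (a := j) hX'
  have a3 : ((j / e : ℕ) : ℝ) * e ≤ j := by exact_mod_cast Nat.div_mul_le_self j e
  have a4 : (j : ℝ) < ((j / e : ℕ) : ℝ) * e + e := by
    exact_mod_cast Nat.lt_div_mul_add (a := j) he
  have a5 : (j : ℝ) < e * X' := by exact_mod_cast hj
  set l : ℝ := ((j / X' : ℕ) : ℝ) with hl
  set a : ℝ := ((j / e : ℕ) : ℝ) with ha
  constructor
  · -- `a * e ≤ j`, `l * X' > j - X'`
    have h1 : (a - 2 * ρ) * (e * X') ≤ ρ * l * (e * X') := by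
      have h2 : ρ * e * (j - X') ≤ ρ * e * (l * X') :=
        mul_le_mul_of_nonneg_left (by linarith) (by positivity)
      have h3 : a * e * X' ≤ j * X' := mul_le_mul_of_nonneg_right a3 hX0.le
      have h4 : (j : ℝ) * (X' - ρ * e) ≤ e * X' * ρ := by
        calc (j : ℝ) * (X' - ρ * e) ≤ (e * X') * (X' - ρ * e) :=
              mul_le_mul_of_nonneg_right a5.le (by linarith)
          _ ≤ (e * X') * ρ := mul_le_mul_of_nonneg_left (by linarith) (by positivity)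
      nlinarith
    have h2 := le_of_mul_le_mul_right h1 (by positivity)
    linarith
  · have h1 : ρ * l * (e * X') ≤ (a + 1) * (e * X') := by
      have h2 : ρ * e * (l * X') ≤ ρ * e * j := mul_le_mul_of_nonneg_left a1 (by positivity)
      have h3 : ρ * e * j ≤ X' * j := mul_le_mul_of_nonneg_right he1 hj0
      have h4 : (X' : ℝ) * j ≤ X' * (a * e + e) := mul_le_mul_of_nonneg_left a4.le hX0.le
      nlinarith
    have h2 := le_of_mul_le_mul_right h1 (by positivity)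
    linarith

/-- the displacement in one direction, reflected for positive slopes -/
def hh (α : ℝ) (e l : ℕ) : ℤ :=
  (if 0 < α then ⌊α * ((e - 1 : ℕ) : ℝ)⌋ else 0)
    - ⌊α * ((if 0 < α then e - 1 - l else l : ℕ) : ℝ)⌋

omit [NeZero N] in
theorem hh_bound (α : ℝ) (hα : α ≠ 0) (e l : ℕ) (hl : l < e) :
    |(hh α e l : ℝ) - |α| * l| ≤ 1 := by
  unfold hh
  split_ifs with h
  · have e1 : ((e - 1 - l : ℕ) : ℝ) = ((e - 1 : ℕ) : ℝ) - l := by
      rw [Nat.cast_sub (by omega)]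
    have h1 := Int.floor_le (α * ((e - 1 : ℕ) : ℝ))
    have h2 := Int.lt_floor_add_one (α * ((e - 1 : ℕ) : ℝ))
    have h3 := Int.floor_le (α * ((e - 1 - l : ℕ) : ℝ))
    have h4 := Int.lt_floor_add_one (α * ((e - 1 - l : ℕ) : ℝ))
    have e2 : α * ((e - 1 - l : ℕ) : ℝ) = α * ((e - 1 : ℕ) : ℝ) - α * l := by
      rw [e1]
      ring
    push_cast
    rw [abs_of_pos h, abs_le]
    constructor <;> linarith
  · have h0 : α < 0 := lt_of_le_of_ne (not_lt.1 h) hα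
    have h3 := Int.floor_le (α * (l : ℝ))
    have h4 := Int.lt_floor_add_one (α * (l : ℝ))
    push_cast
    rw [abs_of_neg h0, abs_le]
    constructor <;> linarith

/-- progressions versus intervals -/
theorem coupling {r : ℕ} {B X : ℝ} (hX : 0 < X) {f : ZMod N → ℂ} (hf : Adm B X f)
    (α : Fin r → ℝ) (hα : ∀ i, α i ≠ 0) (X' : ℕ) (hX' : 0 < X') (e : Fin r → ℕ)
    (he : ∀ i, 0 < e i) (he1 : ∀ i, |α i| * e i ≤ X') (he2 : ∀ i, (X' : ℝ) < |α i| * (e i + 1))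
    (E : ℝ) (hE : ∑ i, (2 * |α i| + 2) ≤ E) :
    ‖(𝔼 l ∈ Fintype.piFinset (fun i => range (e i)), 𝔼 l' ∈ Fintype.piFinset (fun i => range (e i)),
        W f (fun ω => -∑ i, ⌊α i * ((sel ω l l' i : ℕ) : ℝ)⌋))
      - 𝔼 a ∈ boxset r X', 𝔼 b ∈ boxset r X', 𝔼 x, cube f a b x‖
      ≤ 2 ^ r * E * (B * (1 / X + 1 / N)) := by
  classical
  -- reflect
  have hsel : ∀ (ω : Fin r → Bool) (l l' : Fin r → ℕ),
      sel ω (fun i => if 0 < α i then e i - 1 - l i else l i)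
        (fun i => if 0 < α i then e i - 1 - l' i else l' i)
      = fun i => if 0 < α i then e i - 1 - sel ω l l' i else sel ω l l' i := by
    intro ω l l'
    funext i
    by_cases h : ω i = true
    · simp only [sel, h, if_true]
    · simp only [sel, h, if_false, Bool.false_eq_true]
  have h1 : (𝔼 l ∈ Fintype.piFinset (fun i => range (e i)),
      𝔼 l' ∈ Fintype.piFinset (fun i => range (e i)),
        W f (fun ω => -∑ i, ⌊α i * ((sel ω l l' i : ℕ) : ℝ)⌋))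
      = 𝔼 l ∈ Fintype.piFinset (fun i => range (e i)),
      𝔼 l' ∈ Fintype.piFinset (fun i => range (e i)),
        W f (fun ω => ∑ i, hh (α i) (e i) (sel ω l l' i)) := by
    rw [← expect_pi_refl e (fun i => 0 < α i)]
    refine Finset.expect_congr rfl fun l _ => ?_
    rw [← expect_pi_refl e (fun i => 0 < α i)]
    refine Finset.expect_congr rfl fun l' _ => ?_
    rw [← W_shift f _ (∑ i, if 0 < α i then ⌊α i * ((e i - 1 : ℕ) : ℝ)⌋ else 0)]
    congr 1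
    funext ω
    rw [hsel, neg_add_eq_sub, ← Finset.sum_sub_distrib]
    rfl
  -- couple
  have h2 : (𝔼 l ∈ Fintype.piFinset (fun i => range (e i)),
      𝔼 l' ∈ Fintype.piFinset (fun i => range (e i)),
        W f (fun ω => ∑ i, hh (α i) (e i) (sel ω l l' i)))
      = 𝔼 j ∈ Fintype.piFinset (fun i => range (e i * X')),
      𝔼 j' ∈ Fintype.piFinset (fun i => range (e i * X')),
        W f (fun ω => ∑ i, hh (α i) (e i) (sel ω (fun i => j i / X') (fun i => j' i / X') i)) := by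
    rw [← expect_pi_div e (fun _ => X') (fun _ => hX')]
    refine Finset.expect_congr rfl fun l _ => ?_
    rw [← expect_pi_div e (fun _ => X') (fun _ => hX')]
  have h3 : (𝔼 a ∈ boxset r X', 𝔼 b ∈ boxset r X', 𝔼 x, cube f a b x)
      = 𝔼 j ∈ Fintype.piFinset (fun i => range (e i * X')),
      𝔼 j' ∈ Fintype.piFinset (fun i => range (e i * X')),
        W f (fun ω => ∑ i, ((sel ω (fun i => j i / e i) (fun i => j' i / e i) i : ℕ) : ℤ)) := by
    have e0 : (fun i : Fin r => range (e i * X')) = fun i => range (X' * e i) := by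
      funext i
      rw [mul_comm]
    rw [e0, boxset, ← expect_pi_div (fun _ : Fin r => X') e he]
    refine Finset.expect_congr rfl fun l _ => ?_
    rw [← expect_pi_div (fun _ : Fin r => X') e he]
    refine Finset.expect_congr rfl fun l' _ => ?_
    rw [W_cube]
  have hne : (Fintype.piFinset (fun i => range (e i * X'))).Nonempty :=
    ⟨fun _ => 0, Fintype.mem_piFinset.2 fun i => Finset.mem_range.2 (Nat.mul_pos (he i) hX')⟩
  rw [h1, h2, h3, ← Finset.expect_sub_distrib]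
  refine (RCLike.norm_expect_le (K := ℂ)).trans (Finset.expect_le hne fun j hj => ?_)
  rw [← Finset.expect_sub_distrib]
  refine (RCLike.norm_expect_le (K := ℂ)).trans (Finset.expect_le hne fun j' hj' => ?_)
  refine W_lip hX hf _ _ E fun ω => ?_
  have key : ∀ (i : Fin r) (t : ℕ), t < e i * X' →
      |((hh (α i) (e i) (t / X') - ((t / e i : ℕ) : ℤ) : ℤ) : ℝ)| ≤ 2 * |α i| + 2 := by
    intro i t ht
    have hα0 : 0 < |α i| := abs_pos.2 (hα i)
    have b1 := couple_real |α i| hα0 X' (e i) t hX' (he i) (he1 i) (he2 i) ht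
    have b2 := hh_bound (α i) (hα i) (e i) (t / X') ((Nat.div_lt_iff_lt_mul hX').2 ht)
    rw [abs_le] at b2 ⊢
    rw [Int.cast_sub, Int.cast_natCast]
    constructor <;> linarith [b1.1, b1.2, b2.1, b2.2]
  rw [← Finset.sum_sub_distrib, Int.cast_sum]
  refine (Finset.abs_sum_le_sum_abs _ _).trans (le_trans (Finset.sum_le_sum fun i _ => ?_) hE)
  unfold sel
  split_ifs
  · exact key i _ (Finset.mem_range.1 (Fintype.mem_piFinset.1 hj' i))
  · exact key i _ (Finset.mem_range.1 (Fintype.mem_piFinset.1 hj i))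

/-! ### from linear forms to progressions -/

omit [NeZero N] in
theorem round_bound {r : ℕ} (α : Fin r → ℝ) (j : Fin r) (k : ℕ) (l : Fin r → ℕ) :
    |(((-∑ i, ⌊α i * (l i : ℝ)⌋) + ⌊α j * ((k + ∑ i, l i : ℕ) : ℝ)⌋
      - ⌊α j * k + ∑ i ∈ univ.erase j, (α j - α i) * l i⌋ : ℤ) : ℝ)| ≤ r + 2 := by
  have h1 := Int.floor_le (α j * ((k + ∑ i, l i : ℕ) : ℝ))
  have h2 := Int.lt_floor_add_one (α j * ((k + ∑ i, l i : ℕ) : ℝ))
  have h3 := Int.floor_le (α j * k + ∑ i ∈ univ.erase j, (α j - α i) * l i)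
  have h4 := Int.lt_floor_add_one (α j * k + ∑ i ∈ univ.erase j, (α j - α i) * l i)
  have h5 : (∑ i, (⌊α i * (l i : ℝ)⌋ : ℝ)) ≤ ∑ i, α i * (l i : ℝ) :=
    Finset.sum_le_sum fun i _ => Int.floor_le _
  have h6 : (∑ i, α i * (l i : ℝ)) - r ≤ ∑ i, (⌊α i * (l i : ℝ)⌋ : ℝ) := by
    have h7 : ∑ i : Fin r, (α i * (l i : ℝ) - 1) ≤ ∑ i, (⌊α i * (l i : ℝ)⌋ : ℝ) :=
      Finset.sum_le_sum fun i _ => by linarith [Int.lt_floor_add_one (α i * (l i : ℝ))]
    rw [Finset.sum_sub_distrib] at h7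
    simpa using h7
  have h8 : α j * ((k + ∑ i, l i : ℕ) : ℝ) - ∑ i, α i * (l i : ℝ)
      = α j * k + ∑ i ∈ univ.erase j, (α j - α i) * l i := by
    have h9 : ∑ i ∈ univ.erase j, (α j - α i) * (l i : ℝ) = ∑ i, (α j - α i) * (l i : ℝ) := by
      rw [Finset.sum_erase]
      ring
    rw [h9]
    push_cast
    rw [mul_add, Finset.mul_sum]
    have h10 : ∑ i, (α j - α i) * (l i : ℝ) = ∑ i, α j * (l i : ℝ) - ∑ i, α i * (l i : ℝ) := by
      rw [← Finset.sum_sub_distrib]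
      exact Finset.sum_congr rfl fun i _ => by ring
    rw [h10]
    ring
  have hr : (0 : ℝ) ≤ r := Nat.cast_nonneg r
  push_cast at h1 h2 h8 ⊢
  rw [abs_le]
  constructor <;> linarith

theorem gcs_part {r : ℕ} (hr : 1 ≤ r) {B X : ℝ} (hX : 0 < X) (fs : ZMod N → ℂ)
    (hfs : ∀ x, ‖fs x‖ ≤ 1) (f : Fin r → ZMod N → ℂ) (hf : ∀ j, Adm B X (f j)) (α : Fin r → ℝ)
    (K : ℕ) (hK : 0 < K) (e : Fin r → ℕ) (he : ∀ i, 0 < e i) (H : ℝ) (hH : ∑ i, (e i : ℝ) ≤ H)
    (δ : ℝ) (hδ : 0 ≤ δ)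
    (h : δ + 2 * H / K + r * (r + 2) * (B * (1 / X + 1 / N))
      ≤ ‖𝔼 k ∈ range K, 𝔼 x, fs x * ∏ j, f j (x + (⌊α j * k⌋ : ZMod N))‖) :
    δ ^ (2 ^ r) ≤ (𝔼 l ∈ Fintype.piFinset (fun i => range (e i)),
      𝔼 l' ∈ Fintype.piFinset (fun i => range (e i)),
        W fs (fun ω => -∑ i, ⌊α i * ((sel ω l l' i : ℕ) : ℝ)⌋)).re := by
  classical
  set G : ℕ → ℂ := fun k => 𝔼 x : ZMod N, fs x * ∏ j, f j (x + (⌊α j * k⌋ : ZMod N)) with hGdef
  set L : Finset (Fin r → ℕ) := Fintype.piFinset (fun i => range (e i)) with hLdef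
  have hL : L.Nonempty :=
    ⟨fun _ => 0, Fintype.mem_piFinset.2 fun i => Finset.mem_range.2 (he i)⟩
  have hG : ∀ k, ‖G k‖ ≤ 1 := by
    intro k
    refine (RCLike.norm_expect_le (K := ℂ)).trans (Finset.expect_le Finset.univ_nonempty
      fun x _ => ?_)
    rw [norm_mul, norm_prod]
    exact mul_le_one₀ (hfs x) (Finset.prod_nonneg fun _ _ => norm_nonneg _)
      (Finset.prod_le_one (fun _ _ => norm_nonneg _) fun j _ => (hf j).bdd _)
  have h1 := avg_avg L hL (fun l => ∑ i, l i) H (fun l hl => by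
    push_cast
    refine le_trans (Finset.sum_le_sum fun i _ => ?_) hH
    have := Finset.mem_range.1 (Fintype.mem_piFinset.1 hl i)
    exact_mod_cast this.le) G hG K hK
  have h2 : δ + r * (r + 2) * (B * (1 / X + 1 / N))
      ≤ ‖𝔼 k ∈ range K, 𝔼 l ∈ L, G (k + ∑ i, l i)‖ := by
    have h3 := norm_sub_norm_le (𝔼 k ∈ range K, G k) (𝔼 k ∈ range K, 𝔼 l ∈ L, G (k + ∑ i, l i))
    linarith
  obtain ⟨k, -, h3⟩ := exists_of_le_norm_expect (range K) (Finset.nonempty_range_iff.2 hK.ne') _ _ h2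
  set Lam : (Fin r → ℕ) → ℤ := fun l => ∑ i, ⌊α i * (l i : ℝ)⌋ with hLam
  set v : Fin r → (Fin r → ℕ) → ℤ :=
    fun j l => ⌊α j * k + ∑ i ∈ univ.erase j, (α j - α i) * l i⌋ with hv
  have h4 : ‖(𝔼 l ∈ L, G (k + ∑ i, l i)) - 𝔼 l ∈ L, 𝔼 x : ZMod N,
      fs (x + ((-Lam l : ℤ) : ZMod N)) * ∏ j, f j (x + (v j l : ZMod N))‖
      ≤ r * (r + 2) * (B * (1 / X + 1 / N)) := by
    rw [← Finset.expect_sub_distrib]
    refine (RCLike.norm_expect_le (K := ℂ)).trans (Finset.expect_le hL fun l _ => ?_)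
    have h5 : G (k + ∑ i, l i) = 𝔼 x : ZMod N, fs (x + ((-Lam l : ℤ) : ZMod N)) *
        ∏ j, f j (x + ((-Lam l + ⌊α j * ((k + ∑ i, l i : ℕ) : ℝ)⌋ : ℤ) : ZMod N)) := by
      rw [hGdef]
      dsimp only
      rw [← expect_shift (fun x : ZMod N => fs x *
        ∏ j, f j (x + (⌊α j * ((k + ∑ i, l i : ℕ) : ℝ)⌋ : ZMod N))) ((-Lam l : ℤ) : ZMod N)]
      refine Finset.expect_congr rfl fun x _ => ?_
      congr 1
      refine Finset.prod_congr rfl fun j _ => ?_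
      congr 1
      push_cast
      ring
    rw [h5]
    refine (expect_prod_diff hX (fun x => fs (x + ((-Lam l : ℤ) : ZMod N))) (fun x => hfs _) f hf
      (fun j => -Lam l + ⌊α j * ((k + ∑ i, l i : ℕ) : ℝ)⌋) (fun j => v j l)
      (fun _ => (r : ℝ) + 2) (fun j => round_bound α j k l)).trans (le_of_eq ?_)
    rw [Finset.sum_const, nsmul_eq_mul, Finset.card_univ, Fintype.card_fin]
  have h5 : δ ≤ ‖𝔼 l ∈ L, 𝔼 x : ZMod N,
      fs (x + ((-Lam l : ℤ) : ZMod N)) * ∏ j, f j (x + (v j l : ZMod N))‖ := by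
    have h6 := norm_sub_norm_le (𝔼 l ∈ L, G (k + ∑ i, l i)) (𝔼 l ∈ L, 𝔼 x : ZMod N,
      fs (x + ((-Lam l : ℤ) : ZMod N)) * ∏ j, f j (x + (v j l : ZMod N)))
    linarith
  rw [Finset.expect_comm] at h5
  have h6 : δ ≤ 𝔼 x : ZMod N, ‖𝔼 l ∈ L,
      fs (x + ((-Lam l : ℤ) : ZMod N)) * ∏ j, f j (x + (v j l : ZMod N))‖ :=
    h5.trans (RCLike.norm_expect_le (K := ℂ))
  have h7 : δ ^ (2 ^ r) ≤ 𝔼 x : ZMod N, ‖𝔼 l ∈ L,
      fs (x + ((-Lam l : ℤ) : ZMod N)) * ∏ j, f j (x + (v j l : ZMod N))‖ ^ (2 ^ r) :=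
    (pow_le_pow_left₀ hδ h6 _).trans
      (gcs_pow_expect_le _ _ _ fun _ _ => norm_nonneg _)
  refine h7.trans ?_
  have h8 : ∀ x : ZMod N, ‖𝔼 l ∈ L,
      fs (x + ((-Lam l : ℤ) : ZMod N)) * ∏ j, f j (x + (v j l : ZMod N))‖ ^ (2 ^ r)
      ≤ (𝔼 l ∈ L, 𝔼 l' ∈ L, ∏ ω : Fin r → Bool,
        cjj ω (fs (x + ((-Lam (sel ω l l') : ℤ) : ZMod N)))).re := by
    intro x
    refine gcs hr (fun i => range (e i)) (fun i => Finset.nonempty_range_iff.2 (he i).ne')
      (fun l => fs (x + ((-Lam l : ℤ) : ZMod N))) (fun j l => f j (x + (v j l : ZMod N)))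
      (fun j l => (hf j).bdd _) ?_
    intro j a a' haa
    have h9 : v j a = v j a' := by
      rw [hv]
      dsimp only
      congr 2
      refine Finset.sum_congr rfl fun i hi => ?_
      rw [haa i (Finset.ne_of_mem_erase hi)]
    rw [h9]
  refine (Finset.expect_le_expect fun x _ => h8 x).trans (le_of_eq ?_)
  rw [← gcs_re_expect]
  congr 1
  rw [Finset.expect_comm]
  refine Finset.expect_congr rfl fun l _ => ?_
  rw [Finset.expect_comm]
  rfl

omit [NeZero N] in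
theorem floor_half {y : ℝ} (hy : 1 ≤ y) : y / 2 ≤ (⌊y⌋₊ : ℝ) := by
  have h1 := Nat.lt_floor_add_one y
  have h2 : (1 : ℝ) ≤ (⌊y⌋₊ : ℝ) := by
    exact_mod_cast (Nat.one_le_floor_iff y).2 hy
  linarith

omit [NeZero N] in
/-- absorbing constants -/
theorem absorb {δ : ℝ} (hδ0 : 0 < δ) (hδ : δ ≤ 1 / 2) (c : ℝ) (k a b : ℕ) (hc : c ≤ 2 ^ k)
    (hb : a + k ≤ b) : c * δ ^ b ≤ δ ^ a := by
  have h1 : δ ^ b ≤ δ ^ (a + k) := pow_le_pow_of_le_one hδ0.le (by linarith) hb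
  have h2 : δ ^ k ≤ (1 / 2) ^ k := pow_le_pow_left₀ hδ0.le hδ k
  calc c * δ ^ b ≤ 2 ^ k * δ ^ b := mul_le_mul_of_nonneg_right hc (pow_nonneg hδ0.le _)
    _ ≤ 2 ^ k * δ ^ (a + k) := mul_le_mul_of_nonneg_left h1 (by positivity)
    _ = 2 ^ k * δ ^ k * δ ^ a := by rw [pow_add]; ring
    _ ≤ 2 ^ k * (1 / 2) ^ k * δ ^ a := by gcongr
    _ = δ ^ a := by rw [← mul_pow]; norm_num

end LF

/-- averages of linear forms are controlled by the box norm of the first function over an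
interval. -/
theorem lin_forms (r n : ℕ) (hr : 1 ≤ r) : ∃ n' : ℕ, ∀ (N : ℕ) [NeZero N] (δ X A0 : ℝ) (K : ℕ)
    (α : Fin r → ℝ) (fs : ZMod N → ℂ) (f : Fin r → ZMod N → ℂ), 0 < δ → δ ≤ 1 / 2 →
    Adm (δ⁻¹ ^ n) X fs → (∀ j, Adm (δ⁻¹ ^ n) X (f j)) → 0 < A0 → (∀ j, A0 ≤ |α j|) →
    (∀ j, |α j| ≤ δ ^ n' * X) → 1 ≤ δ ^ n' * X → X ≤ N → δ⁻¹ ^ n' ≤ K → X ≤ δ ^ n' * A0 * K →
    δ ^ n ≤ ‖𝔼 k ∈ range K, 𝔼 x, fs x * ∏ j, f j (x + (⌊α j * k⌋ : ZMod N))‖ →
    ∀ X1 : ℕ, 1 ≤ X1 → (X1 : ℝ) ≤ δ ^ n' * A0 * K → δ ^ n' ≤ Box r X1 fs := by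
  obtain ⟨p, hp⟩ : ∃ p : ℕ, p = n + r + 3 := ⟨_, rfl⟩
  obtain ⟨m1, hm1⟩ : ∃ m1 : ℕ, m1 = (n + 1) * 2 ^ r := ⟨_, rfl⟩
  obtain ⟨t, ht⟩ : ∃ t : ℕ, t = p + m1 + 2 * r + 6 := ⟨_, rfl⟩
  refine ⟨n + t, ?_⟩
  intro N _ δ X A0 K α fs f hδ0 hδ hfs hf hA0 hA hα h1X hXN hK hXA hform X1 hX1 hX1b
  have hr2 : (r : ℝ) ≤ 2 ^ r := by exact_mod_cast Nat.lt_two_pow_self.le
  have hr1 : (1 : ℝ) ≤ 2 ^ r := one_le_pow₀ (by norm_num)
  have hr0 : (0 : ℝ) ≤ r := Nat.cast_nonneg r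
  have hδ1 : δ ≤ 1 := by linarith
  have hinv : 0 < δ⁻¹ := inv_pos.2 hδ0
  have hX0 : 0 < X := by
    by_contra hcon
    have : δ ^ (n + t) * X ≤ 0 := mul_nonpos_of_nonneg_of_nonpos (by positivity) (by linarith)
    linarith
  have hN0 : (0 : ℝ) < N := hX0.trans_le hXN
  have hK0 : (0 : ℝ) < K := (pow_pos hinv _).trans_le hK
  have hKn : 0 < K := by exact_mod_cast hK0
  have h1X' : 1 / X ≤ δ ^ (n + t) := by
    rw [div_le_iff₀ hX0]
    exact h1X
  have hNX : 1 / (N : ℝ) ≤ 1 / X := one_div_le_one_div_of_le hX0 hXN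
  have hB : δ⁻¹ ^ n * δ ^ (n + t) = δ ^ t := by
    rw [pow_add, ← mul_assoc, ← mul_pow, inv_mul_cancel₀ hδ0.ne', one_pow, one_mul]
  have hBX : δ⁻¹ ^ n * (1 / X + 1 / N) ≤ 2 * δ ^ t := by
    calc δ⁻¹ ^ n * (1 / X + 1 / N) ≤ δ⁻¹ ^ n * (2 * δ ^ (n + t)) :=
          mul_le_mul_of_nonneg_left (by linarith) (by positivity)
      _ = 2 * δ ^ t := by rw [← hB]; ring
  have hδnt : δ ^ (n + t) ≤ 1 := pow_le_one₀ hδ0.le hδ1
  have hX1' : 1 ≤ X := by
    calc 1 ≤ δ ^ (n + t) * X := h1X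
      _ ≤ 1 * X := mul_le_mul_of_nonneg_right hδnt hX0.le
      _ = X := one_mul X
  -- the length of the intervals
  set y : ℝ := δ ^ p * A0 * K with hy
  have hy0 : 0 < y := by positivity
  obtain ⟨q, hq⟩ : ∃ q : ℕ, n + t = q + p ∧ n + m1 + 2 * r + 6 = q := ⟨_, by omega, rfl⟩
  have hyq : δ ^ (n + t) * A0 * K = δ ^ q * y := by
    rw [hq.1, hy, pow_add]
    ring
  have h2q : 2 * δ ^ q ≤ 1 := by
    have := LF.absorb hδ0 hδ 2 1 0 q (by norm_num) (by omega)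
    simpa using this
  have hy2 : 2 * X ≤ y := by
    have h1 : X ≤ δ ^ q * y := by rw [← hyq]; exact hXA
    nlinarith
  obtain ⟨X', hX'1, hX'a, hX'b⟩ : ∃ X' : ℕ, 1 ≤ X' ∧ (X' : ℝ) ≤ y ∧ y / 2 ≤ X' :=
    ⟨⌊y⌋₊, (Nat.one_le_floor_iff _).2 (by linarith), Nat.floor_le hy0.le,
      LF.floor_half (by linarith)⟩
  have hX'0 : (0 : ℝ) < X' := by exact_mod_cast hX'1
  have hα0 : ∀ i, 0 < |α i| := fun i => hA0.trans_le (hA i)
  have hαX : ∀ i, |α i| ≤ X' := by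
    intro i
    calc |α i| ≤ δ ^ (n + t) * X := hα i
      _ ≤ 1 * X := mul_le_mul_of_nonneg_right hδnt hX0.le
      _ ≤ X' := by linarith
  obtain ⟨e, he⟩ : ∃ e : Fin r → ℕ, ∀ i, e i = ⌊(X' : ℝ) / |α i|⌋₊ := ⟨_, fun _ => rfl⟩
  have he0 : ∀ i, 0 < e i := by
    intro i
    rw [he i]
    exact (Nat.one_le_floor_iff _).2 ((one_le_div (hα0 i)).2 (hαX i))
  have he1 : ∀ i, |α i| * e i ≤ X' := by
    intro i
    have := Nat.floor_le (show 0 ≤ (X' : ℝ) / |α i| by positivity)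
    rw [← he i, le_div_iff₀ (hα0 i)] at this
    linarith
  have he2 : ∀ i, (X' : ℝ) < |α i| * (e i + 1) := by
    intro i
    have := Nat.lt_floor_add_one ((X' : ℝ) / |α i|)
    rw [← he i, div_lt_iff₀ (hα0 i)] at this
    linarith
  have heK : ∀ i, (e i : ℝ) ≤ δ ^ p * K := by
    intro i
    have h1 : A0 * e i ≤ A0 * (δ ^ p * K) := by
      calc A0 * e i ≤ |α i| * e i := mul_le_mul_of_nonneg_right (hA i) (Nat.cast_nonneg _)
        _ ≤ y := (he1 i).trans hX'a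
        _ = A0 * (δ ^ p * K) := by rw [hy]; ring
    exact le_of_mul_le_mul_left h1 hA0
  have hH : ∑ i, (e i : ℝ) ≤ r * (δ ^ p * K) := by
    refine (Finset.sum_le_sum fun i _ => heK i).trans (le_of_eq ?_)
    rw [Finset.sum_const, nsmul_eq_mul, Finset.card_univ, Fintype.card_fin]
  -- progressions
  have hsum : δ ^ (n + 1) + 2 * (r * (δ ^ p * K)) / K
      + r * (r + 2) * (δ⁻¹ ^ n * (1 / X + 1 / N)) ≤ δ ^ n := by
    have h1 : δ ^ (n + 1) ≤ δ ^ n / 2 := by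
      rw [pow_succ]
      have := pow_pos hδ0 n
      nlinarith
    have h2 : 2 * (r * (δ ^ p * K)) / K = 2 * r * δ ^ p := by
      field_simp
    have h3 : (8 * r) * δ ^ p ≤ δ ^ n := by
      refine LF.absorb hδ0 hδ _ (r + 3) n p ?_ (by omega)
      rw [pow_add]
      linarith
    have h4 : (8 * r * (r + 2)) * δ ^ t ≤ δ ^ n := by
      refine LF.absorb hδ0 hδ _ (2 * r + 5) n t ?_ (by omega)
      have h5 : (r : ℝ) * (r + 2) ≤ 2 ^ r * (4 * 2 ^ r) := by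
        refine mul_le_mul hr2 (by linarith) (by linarith) (by positivity)
      calc (8 * r * (r + 2) : ℝ) = 8 * (r * (r + 2)) := by ring
        _ ≤ 8 * (2 ^ r * (4 * 2 ^ r)) := by linarith
        _ = 2 ^ (2 * r + 5) := by rw [pow_add, two_mul, pow_add]; ring
    have h5 : r * (r + 2) * (δ⁻¹ ^ n * (1 / X + 1 / N)) ≤ r * (r + 2) * (2 * δ ^ t) :=
      mul_le_mul_of_nonneg_left hBX (by positivity)
    rw [h2]
    linarith
  have hQ := LF.gcs_part hr hX0 fs hfs.bdd f hf α K hKn e he0 _ hH (δ ^ (n + 1)) (by positivity)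
    (hsum.trans hform)
  rw [← pow_mul, ← hm1] at hQ
  -- intervals
  have hE : ∑ i, (2 * |α i| + 2) ≤ 4 * r * (δ ^ (n + t) * X) := by
    have h1 : ∀ i ∈ (univ : Finset (Fin r)), 2 * |α i| + 2 ≤ 4 * (δ ^ (n + t) * X) := by
      intro i _
      linarith [hα i]
    refine (Finset.sum_le_sum h1).trans (le_of_eq ?_)
    rw [Finset.sum_const, nsmul_eq_mul, Finset.card_univ, Fintype.card_fin]
    ring
  have hcpl := LF.coupling hX0 hfs α (fun i => abs_pos.1 (hα0 i)) X' hX'1 e he0 he1 he2 _ hE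
  have hcb : 2 ^ r * (4 * r * (δ ^ (n + t) * X)) * (δ⁻¹ ^ n * (1 / X + 1 / N)) ≤ δ ^ m1 / 2 := by
    have h1 : δ⁻¹ ^ n * (1 / X + 1 / N) ≤ δ⁻¹ ^ n * (2 * (1 / X)) :=
      mul_le_mul_of_nonneg_left (by linarith) (by positivity)
    have h2 : 2 ^ r * (4 * r * (δ ^ (n + t) * X)) * (δ⁻¹ ^ n * (2 * (1 / X)))
        = 8 * r * 2 ^ r * δ ^ t := by
      rw [← hB]
      field_simp
      ring
    have h3 : (16 * r * 2 ^ r) * δ ^ t ≤ δ ^ m1 := by
      refine LF.absorb hδ0 hδ _ (2 * r + 4) m1 t ?_ (by omega)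
      calc (16 * r * 2 ^ r : ℝ) ≤ 16 * 2 ^ r * 2 ^ r := by gcongr
        _ = 2 ^ (2 * r + 4) := by rw [pow_add, two_mul, pow_add]; ring
    calc _ ≤ 2 ^ r * (4 * r * (δ ^ (n + t) * X)) * (δ⁻¹ ^ n * (2 * (1 / X))) :=
          mul_le_mul_of_nonneg_left h1 (by positivity)
      _ = 8 * r * 2 ^ r * δ ^ t := h2
      _ ≤ δ ^ m1 / 2 := by linarith
  have hBox : δ ^ m1 / 2 ≤ Box r X' fs := by
    have h1 := Complex.re_le_norm ((𝔼 l ∈ Fintype.piFinset (fun i => range (e i)),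
      𝔼 l' ∈ Fintype.piFinset (fun i => range (e i)),
        LF.W fs (fun ω => -∑ i, ⌊α i * ((sel ω l l' i : ℕ) : ℝ)⌋))
      - 𝔼 a ∈ boxset r X', 𝔼 b ∈ boxset r X', 𝔼 x, cube fs a b x)
    rw [Complex.sub_re] at h1
    have h2 := h1.trans (hcpl.trans hcb)
    unfold Box
    linarith
  -- shorter intervals
  have hX1X' : (X1 : ℝ) ≤ δ ^ q * (2 * X') := by
    rw [hyq] at hX1b
    exact hX1b.trans (mul_le_mul_of_nonneg_left (by linarith) (by positivity))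
  have hX1le : X1 ≤ X' := by
    have : (X1 : ℝ) ≤ X' := by
      calc (X1 : ℝ) ≤ δ ^ q * (2 * X') := hX1X'
        _ = 2 * δ ^ q * X' := by ring
        _ ≤ 1 * X' := mul_le_mul_of_nonneg_right h2q hX'0.le
        _ = X' := one_mul _
    exact_mod_cast this
  have hsh := Box_shorten_all r X' X1 hX1 hX1le hfs.bdd
  have h8 : (r : ℝ) * (4 * X1 / X') ≤ δ ^ m1 / 4 := by
    have h1 : (4 * X1 / X' : ℝ) ≤ 8 * δ ^ q := by
      rw [div_le_iff₀ hX'0]
      linarith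
    have h3 : (32 * r) * δ ^ q ≤ δ ^ m1 := by
      refine LF.absorb hδ0 hδ _ (r + 5) m1 q ?_ (by omega)
      rw [pow_add]
      linarith
    have h4 : (r : ℝ) * (4 * X1 / X') ≤ r * (8 * δ ^ q) := mul_le_mul_of_nonneg_left h1 hr0
    linarith
  have h9 : 4 * δ ^ (n + t) ≤ δ ^ m1 :=
    LF.absorb hδ0 hδ 4 2 m1 (n + t) (by norm_num) (by omega)
  linarith

end

end Pool.Agent.Helper57.NX
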